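import Mathlib

/-! Erdős–Littlewood–Offord. -/

set_option autoImplicit false

namespace Pool.Agent.H96.SR

open Finset

/-- Erdős' form of the Littlewood–Offord lemma. -/
theorem lo_card {ι : Type*} [Fintype ι] [DecidableEq ι] (h : ι → ℝ) {δ : ℝ} (T : ℝ)
    (hδ : ∀ i, δ ≤ |h i|) (_hpos : 0 < δ) :
    (univ.filter fun S : Finset ι => T ≤ ∑ i ∈ S, h i ∧ ∑ i ∈ S, h i < T + δ).card ≤
      (Fintype.card ι).choose (Fintype.card ι / 2) := by
  classical
  obtain ⟨Ng, hNg⟩ : ∃ Ng : Finset ι, Ng = univ.filter fun i => h i < 0 := ⟨_, rfl⟩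
  have hm : ∀ i, i ∈ Ng ↔ h i < 0 := fun i => by rw [hNg]; simp
  have key : ∀ S : Finset ι, ∑ i ∈ S, h i = ∑ i ∈ symmDiff S Ng, |h i| - ∑ i ∈ Ng, |h i| := by
    intro S
    rw [← sum_filter_add_sum_filter_not S (fun i => i ∈ Ng) h]
    have e1 : symmDiff S Ng = (S.filter fun i => i ∉ Ng) ∪ (Ng \ S) := by
      ext i
      simp only [mem_symmDiff, mem_union, mem_filter, mem_sdiff]
    have d1 : Disjoint (S.filter fun i => i ∉ Ng) (Ng \ S) := by
      rw [disjoint_left]
      intro i hi hi'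
      simp only [mem_filter, mem_sdiff] at hi hi'
      exact hi.2 hi'.1
    have e2 : Ng = (Ng \ S) ∪ (S.filter fun i => i ∈ Ng) := by
      ext i
      simp only [mem_union, mem_filter, mem_sdiff]
      tauto
    have d2 : Disjoint (Ng \ S) (S.filter fun i => i ∈ Ng) := by
      rw [disjoint_left]
      intro i hi hi'
      simp only [mem_filter, mem_sdiff] at hi hi'
      exact hi.2 hi'.1
    have e3 : ∑ i ∈ Ng, |h i| = ∑ i ∈ Ng \ S, |h i| + ∑ i ∈ S.filter (fun i => i ∈ Ng), |h i| := by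
      conv_lhs => rw [e2]
      exact sum_union d2
    rw [e1, sum_union d1, e3]
    have e4 : ∑ i ∈ S.filter (fun i => i ∈ Ng), h i = - ∑ i ∈ S.filter (fun i => i ∈ Ng), |h i| := by
      rw [← sum_neg_distrib]
      refine sum_congr rfl fun i hi => ?_
      have := (hm i).1 (mem_filter.1 hi).2
      rw [abs_of_neg this, neg_neg]
    have e5 : ∑ i ∈ S.filter (fun i => i ∉ Ng), h i = ∑ i ∈ S.filter (fun i => i ∉ Ng), |h i| := by
      refine sum_congr rfl fun i hi => ?_
      have := (hm i).not.1 (mem_filter.1 hi).2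
      rw [abs_of_nonneg (not_lt.1 this)]
    rw [e4, e5]
    ring
  have hinj : Function.Injective fun S : Finset ι => symmDiff S Ng := symmDiff_left_injective Ng
  rw [← card_image_of_injective _ hinj]
  refine IsAntichain.sperner ?_
  intro A hA B hB hAB hsub
  rw [coe_image] at hA hB
  obtain ⟨S, hS, rfl⟩ := hA
  obtain ⟨S', hS', rfl⟩ := hB
  simp only [coe_filter, Set.mem_ofPred_eq, mem_univ, true_and] at hS hS'
  have hne : symmDiff S Ng ⊂ symmDiff S' Ng := lt_of_le_of_ne hsub hAB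
  obtain ⟨i, hi, hi'⟩ := exists_of_ssubset hne
  have h1 : ∑ i ∈ symmDiff S Ng, |h i| + |h i| ≤ ∑ i ∈ symmDiff S' Ng, |h i| := by
    have e : ∑ j ∈ insert i (symmDiff S Ng), |h j| = |h i| + ∑ j ∈ symmDiff S Ng, |h j| :=
      sum_insert hi'
    rw [add_comm, ← e]
    refine sum_le_sum_of_subset_of_nonneg ?_ fun _ _ _ => abs_nonneg _
    intro j hj
    rcases mem_insert.1 hj with rfl | hj
    · exact hi
    · exact hne.1 hj
  have h2 := hδ i
  rw [key] at hS hS'
  linarith [hS.1, hS'.2]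

/-- The middle binomial coefficient. -/
theorem choose_half_le (N : ℕ) : ((N.choose (N / 2) : ℕ) : ℝ) ≤ 2 ^ N / Real.sqrt (N + 1) := by
  have hs : (0 : ℝ) < Real.sqrt (N + 1) := Real.sqrt_pos.2 (by positivity)
  rw [le_div_iff₀ hs]
  have key : ∀ k : ℕ, (2 * k + 1) * (Nat.centralBinom k) ^ 2 ≤ 4 ^ (2 * k) := by
    intro k
    induction k with
    | zero => simp
    | succ k ih =>
      have h1 := Nat.succ_mul_centralBinom_succ k
      have h2 : ((k + 1) ^ 2) * ((2 * (k + 1) + 1) * (Nat.centralBinom (k + 1)) ^ 2) ≤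
          ((k + 1) ^ 2) * 4 ^ (2 * (k + 1)) := by
        calc ((k + 1) ^ 2) * ((2 * (k + 1) + 1) * (Nat.centralBinom (k + 1)) ^ 2)
            = (2 * (k + 1) + 1) * ((k + 1) * Nat.centralBinom (k + 1)) ^ 2 := by ring
          _ = (2 * (k + 1) + 1) * (2 * (2 * k + 1) * Nat.centralBinom k) ^ 2 := by rw [h1]
          _ = (4 * (2 * k + 3) * (2 * k + 1)) * ((2 * k + 1) * (Nat.centralBinom k) ^ 2) := by ring
          _ ≤ (4 * (2 * k + 3) * (2 * k + 1)) * 4 ^ (2 * k) := Nat.mul_le_mul_left _ ih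
          _ ≤ (16 * (k + 1) ^ 2) * 4 ^ (2 * k) := Nat.mul_le_mul_right _ (by nlinarith)
          _ = ((k + 1) ^ 2) * 4 ^ (2 * (k + 1)) := by ring
      exact Nat.le_of_mul_le_mul_left h2 (by positivity)
  have hsq : ((N.choose (N / 2) : ℕ) : ℝ) ^ 2 * (N + 1) ≤ (2 ^ N) ^ 2 := by
    rcases Nat.even_or_odd' N with ⟨k, rfl | rfl⟩
    · have h := key k
      rw [Nat.mul_div_cancel_left k (by norm_num)]
      have h' : ((2 * k + 1 : ℕ) : ℝ) * ((Nat.centralBinom k : ℕ) : ℝ) ^ 2 ≤ (4 : ℝ) ^ (2 * k) := by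
        exact_mod_cast h
      rw [Nat.centralBinom_eq_two_mul_choose] at h'
      have e : ((2 : ℝ) ^ (2 * k)) ^ 2 = 4 ^ (2 * k) := by
        rw [← pow_mul, mul_comm (2 * k) 2, pow_mul]
        norm_num
      rw [e]
      push_cast at h' ⊢
      linarith
    · have h := key (k + 1)
      have e0 : (2 * k + 1) / 2 = k := by omega
      rw [e0]
      have h3 : 2 * (2 * k + 1).choose k = Nat.centralBinom (k + 1) := by
        rw [Nat.centralBinom_eq_two_mul_choose]
        have e1 : 2 * (k + 1) = (2 * k + 1) + 1 := by ring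
        rw [e1, Nat.choose_succ_succ (2 * k + 1) k]
        have e2 : (2 * k + 1).choose (k + 1) = (2 * k + 1).choose k :=
          Nat.choose_symm_half k
        rw [e2]
        ring
      have h' : ((2 * (k + 1) + 1 : ℕ) : ℝ) * ((Nat.centralBinom (k + 1) : ℕ) : ℝ) ^ 2 ≤
          (4 : ℝ) ^ (2 * (k + 1)) := by
        exact_mod_cast h
      rw [← h3] at h'
      have e : 4 * ((2 : ℝ) ^ (2 * k + 1)) ^ 2 = 4 ^ (2 * (k + 1)) := by
        rw [← pow_mul, show (4 : ℝ) = 2 ^ 2 by norm_num, ← pow_mul, ← pow_add]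
        congr 1
        ring
      push_cast at h' ⊢
      have h0 : (0 : ℝ) ≤ ((2 * k + 1).choose k : ℝ) ^ 2 := by positivity
      nlinarith
  have h1 : (((N.choose (N / 2) : ℕ) : ℝ) * Real.sqrt (N + 1)) ^ 2 ≤ (2 ^ N) ^ 2 := by
    rw [mul_pow, Real.sq_sqrt (by positivity)]
    exact hsq
  exact le_of_sq_le_sq h1 (by positivity)

/-- One interval, with only the indices of `G` being large. -/
theorem lo_interval {ι : Type*} [Fintype ι] [DecidableEq ι] (h : ι → ℝ) {δ : ℝ} (T : ℝ)
    (hpos : 0 < δ) (G : Finset ι) (hG : ∀ i ∈ G, δ ≤ |h i|) :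
    (((univ.filter fun S : Finset ι => T ≤ ∑ i ∈ S, h i ∧ ∑ i ∈ S, h i < T + δ).card : ℕ) : ℝ) ≤
      2 ^ (Fintype.card ι) / Real.sqrt (G.card + 1) := by
  classical
  obtain ⟨A, hA⟩ : ∃ A : Finset (Finset ι),
    A = univ.filter fun S : Finset ι => T ≤ ∑ i ∈ S, h i ∧ ∑ i ∈ S, h i < T + δ := ⟨_, rfl⟩
  rw [← hA]
  have hmA : ∀ S, S ∈ A ↔ T ≤ ∑ i ∈ S, h i ∧ ∑ i ∈ S, h i < T + δ := fun S => by rw [hA]; simp
  have h1 : A.card ≤ (G.card).choose (G.card / 2) * (A.image fun S => S \ G).card := by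
    refine card_le_mul_card_image A _ fun R _ => ?_
    have h2 : (A.filter fun S => S \ G = R).card ≤
        (univ.filter fun S' : Finset G => T - ∑ i ∈ R, h i ≤ ∑ i ∈ S', h i ∧
          ∑ i ∈ S', h i < T - ∑ i ∈ R, h i + δ).card := by
      refine card_le_card_of_injOn (fun S => S.subtype fun i => i ∈ G) ?_ ?_
      · intro S hS
        simp only [coe_filter, Set.mem_ofPred_eq] at hS
        simp only [coe_filter, Set.mem_ofPred_eq, mem_univ, true_and]
        have e1 : ∑ i ∈ S.subtype (fun i => i ∈ G), h i = ∑ i ∈ S.filter (fun i => i ∈ G), h i :=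
          sum_subtype_eq_sum_filter (s := S) (p := fun i => i ∈ G) h
        have e2 : ∑ i ∈ S.filter (fun i => i ∈ G), h i + ∑ i ∈ S.filter (fun i => i ∉ G), h i =
            ∑ i ∈ S, h i := sum_filter_add_sum_filter_not S (fun i => i ∈ G) h
        have e3 : S.filter (fun i => i ∉ G) = R := by
          rw [← hS.2]
          ext i
          simp
        rw [e3] at e2
        have h3 := (hmA S).1 hS.1
        rw [e1]
        constructor <;> linarith [h3.1, h3.2]
      · intro S hS S' hS' he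
        simp only [coe_filter, Set.mem_ofPred_eq] at hS hS'
        have hR : S \ G = S' \ G := hS.2.trans hS'.2.symm
        ext i
        by_cases hi : i ∈ G
        · have e1 : (⟨i, hi⟩ : G) ∈ S.subtype (fun i => i ∈ G) ↔
              (⟨i, hi⟩ : G) ∈ S'.subtype (fun i => i ∈ G) := by
            simp only at he
            rw [he]
          simpa [mem_subtype] using e1
        · have e1 : i ∈ S \ G ↔ i ∈ S' \ G := by rw [hR]
          simpa [mem_sdiff, hi] using e1
    refine h2.trans ?_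
    have h4 := lo_card (ι := G) (fun i => h i) (δ := δ) (T - ∑ i ∈ R, h i)
      (fun i => hG i i.2) hpos
    rw [Fintype.card_coe] at h4
    exact h4
  have h5 : (A.image fun S => S \ G).card ≤ 2 ^ (Fintype.card ι - G.card) := by
    calc (A.image fun S => S \ G).card ≤ (Gᶜ.powerset).card := by
          refine card_le_card ?_
          intro R hR
          obtain ⟨S, -, rfl⟩ := mem_image.1 hR
          rw [mem_powerset]
          intro i hi
          rw [mem_compl]
          exact (mem_sdiff.1 hi).2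
      _ = 2 ^ (Fintype.card ι - G.card) := by rw [card_powerset, card_compl]
  have h6 : (A.card : ℝ) ≤ ((G.card).choose (G.card / 2) : ℝ) * 2 ^ (Fintype.card ι - G.card) := by
    have := h1.trans (Nat.mul_le_mul_left _ h5)
    exact_mod_cast this
  refine h6.trans ?_
  have h7 := choose_half_le G.card
  have h8 : (2 : ℝ) ^ (Fintype.card ι) = 2 ^ G.card * 2 ^ (Fintype.card ι - G.card) := by
    rw [← pow_add, Nat.add_sub_cancel' (card_le_univ G)]
  rw [h8, mul_div_right_comm]
  exact mul_le_mul_of_nonneg_right h7 (by positivity)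

/-- The window `|∑ - T| < L`, covered by `K` intervals. -/
theorem lo_window {ι : Type*} [Fintype ι] [DecidableEq ι] (a b : ι → ℝ) {δ L : ℝ} (T : ℝ)
    (hpos : 0 < δ) (K : ℕ) (hK : 2 * L ≤ K * δ) (G : Finset ι)
    (hG : ∀ i ∈ G, δ ≤ |a i - b i|) :
    (((univ.filter fun S : Finset ι => |∑ i, (if i ∈ S then a i else b i) - T| < L).card : ℕ) : ℝ)
      ≤ K * (2 ^ (Fintype.card ι) / Real.sqrt (G.card + 1)) := by
  classical
  obtain ⟨t, ht⟩ : ∃ t : ℝ, t = T - L - ∑ i, b i := ⟨_, rfl⟩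
  have h1 : (univ.filter fun S : Finset ι => |∑ i, (if i ∈ S then a i else b i) - T| < L) ⊆
      (range K).biUnion fun k => univ.filter fun S : Finset ι =>
        t + k * δ ≤ ∑ i ∈ S, (a i - b i) ∧ ∑ i ∈ S, (a i - b i) < t + k * δ + δ := by
    intro S hS
    rw [mem_filter] at hS
    have hS2 := abs_lt.1 hS.2
    have e1 : ∑ i, (if i ∈ S then a i else b i) = ∑ i ∈ S, (a i - b i) + ∑ i, b i := by
      have e2 : ∑ i ∈ S, (a i - b i) = ∑ i, if i ∈ S then (a i - b i) else 0 := by
        rw [sum_ite_mem, univ_inter]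
      rw [e2, ← sum_add_distrib]
      refine sum_congr rfl fun i _ => ?_
      split_ifs <;> ring
    rw [e1] at hS2
    obtain ⟨x, hx⟩ : ∃ x : ℝ, x = (∑ i ∈ S, (a i - b i) - t) / δ := ⟨_, rfl⟩
    have hx' : ∑ i ∈ S, (a i - b i) = t + x * δ := by
      rw [hx, div_mul_cancel₀ _ hpos.ne']
      ring
    have hx0 : 0 ≤ x := by
      by_contra hc
      push Not at hc
      have : x * δ < 0 := mul_neg_of_neg_of_pos hc hpos
      linarith [hS2.1]
    have hxK : x < K := by
      by_contra hc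
      push Not at hc
      have : K * δ ≤ x * δ := mul_le_mul_of_nonneg_right hc hpos.le
      linarith [hS2.2]
    rw [mem_biUnion]
    refine ⟨⌊x⌋₊, ?_, ?_⟩
    · rw [mem_range]
      exact (Nat.floor_lt hx0).2 hxK
    · rw [mem_filter]
      refine ⟨mem_univ _, ?_⟩
      rw [hx']
      have h2 : (⌊x⌋₊ : ℝ) * δ ≤ x * δ := mul_le_mul_of_nonneg_right (Nat.floor_le hx0) hpos.le
      have h3 : x * δ < (⌊x⌋₊ + 1 : ℝ) * δ := mul_lt_mul_of_pos_right (Nat.lt_floor_add_one x) hpos
      constructor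
      · linarith
      · linarith
  have h2 : (((univ.filter fun S : Finset ι =>
      |∑ i, (if i ∈ S then a i else b i) - T| < L).card : ℕ) : ℝ) ≤
      ∑ k ∈ range K, (((univ.filter fun S : Finset ι =>
        t + k * δ ≤ ∑ i ∈ S, (a i - b i) ∧ ∑ i ∈ S, (a i - b i) < t + k * δ + δ).card : ℕ) : ℝ) := by
    have := (card_le_card h1).trans card_biUnion_le
    exact_mod_cast this
  refine h2.trans ?_
  calc _ ≤ ∑ _k ∈ range K, 2 ^ (Fintype.card ι) / Real.sqrt (G.card + 1) :=
        sum_le_sum fun k _ => lo_interval (fun i => a i - b i) _ hpos G hG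
    _ = _ := by rw [sum_const, card_range, nsmul_eq_mul]

end Pool.Agent.H96.SR
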