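import Mathlib
import Pool.Agent.H96.SR.LO

/-! The concentration function of a sum of independent variables. -/

set_option autoImplicit false

namespace Pool.Agent.H96.SR

open Finset MeasureTheory

open Classical in
/-- the number of `i` with `z i ∈ A i` -/
noncomputable def cnt {ι X : Type*} [Fintype ι] (A : ι → Set X) (z : ι → X) : ℕ :=
  (univ.filter fun i => z i ∈ A i).card

theorem pow_cnt {ι X : Type*} [Fintype ι] (A : ι → Set X) (z : ι → X) (u : ℝ) :
    u ^ cnt A z = ∏ i, (1 - (1 - u) * (A i).indicator (fun _ => (1 : ℝ)) (z i)) := by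
  classical
  unfold cnt
  have h : ∀ i, (1 - (1 - u) * (A i).indicator (fun _ => (1 : ℝ)) (z i)) =
      if z i ∈ A i then u else 1 := by
    intro i
    by_cases hi : z i ∈ A i
    · rw [Set.indicator_of_mem hi, if_pos hi]; ring
    · rw [Set.indicator_of_notMem hi, if_neg hi]; ring
  rw [prod_congr rfl fun i _ => h i, prod_ite, prod_const, prod_const_one, mul_one]

variable {ι X : Type*} [Fintype ι] [Countable X] [MeasurableSpace X] [MeasurableSingletonClass X]

theorem integral_pow_cnt (ρ : ι → Measure X) [∀ i, IsProbabilityMeasure (ρ i)] (A : ι → Set X)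
    {u : ℝ} (h0 : 0 ≤ u) (_h1 : u ≤ 1) :
    ∫ z, u ^ cnt A z ∂(Measure.pi ρ) ≤ Real.exp (- (∑ i, (ρ i).real (A i)) * (1 - u)) := by
  have e1 : ∫ z, u ^ cnt A z ∂(Measure.pi ρ) =
      ∏ i, ∫ x, (1 - (1 - u) * (A i).indicator (fun _ => (1 : ℝ)) x) ∂(ρ i) := by
    rw [← integral_fintype_prod_eq_prod (𝕜 := ℝ)
      (f := fun i x => (1 - (1 - u) * (A i).indicator (fun _ => (1 : ℝ)) x))]
    exact integral_congr_ae (Filter.Eventually.of_forall fun z => pow_cnt A z u)
  have e2 : ∀ i, ∫ x, (1 - (1 - u) * (A i).indicator (fun _ => (1 : ℝ)) x) ∂(ρ i) =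
      1 - (1 - u) * (ρ i).real (A i) := by
    intro i
    have hA : MeasurableSet (A i) := MeasurableSet.of_discrete
    rw [integral_sub (integrable_const _), integral_const, integral_const_mul,
      integral_indicator_const _ hA]
    · simp
    · exact (Integrable.indicator (integrable_const _) hA).const_mul _
  rw [e1, prod_congr rfl fun i _ => e2 i]
  have e3 : - (∑ i, (ρ i).real (A i)) * (1 - u) = ∑ i, -((1 - u) * (ρ i).real (A i)) := by
    rw [sum_neg_distrib, ← mul_sum]
    ring
  rw [e3, Real.exp_sum]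
  refine prod_le_prod (fun i _ => ?_) fun i _ => ?_
  · have h2 : (ρ i).real (A i) ≤ 1 := measureReal_le_one
    have h3 : 0 ≤ (ρ i).real (A i) := measureReal_nonneg
    nlinarith
  · have := Real.add_one_le_exp (-((1 - u) * (ρ i).real (A i)))
    linarith

theorem mean_inv (ρ : ι → Measure X) [∀ i, IsProbabilityMeasure (ρ i)] (A : ι → Set X) :
    (∫ z, 1 / ((cnt A z : ℝ) + 1) ∂(Measure.pi ρ)) * ∑ i, (ρ i).real (A i) ≤ 1 := by
  obtain ⟨s, hs⟩ : ∃ s, s = ∑ i, (ρ i).real (A i) := ⟨_, rfl⟩
  have hs0 : 0 ≤ s := by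
    rw [hs]
    exact sum_nonneg fun i _ => measureReal_nonneg
  have e1 : ∫ z, 1 / ((cnt A z : ℝ) + 1) ∂(Measure.pi ρ) =
      ∫ z, (∫ u in (0 : ℝ)..1, u ^ cnt A z) ∂(Measure.pi ρ) := by
    refine integral_congr_ae (Filter.Eventually.of_forall fun z => ?_)
    simp only [integral_pow]
    norm_num
  have : IsFiniteMeasure (volume.restrict (Set.uIoc (0 : ℝ) 1)) := ⟨by
    rw [Measure.restrict_apply_univ, Set.uIoc_of_le zero_le_one]
    exact measure_Ioc_lt_top⟩
  have hint : Integrable (Function.uncurry fun (u : ℝ) (z : ι → X) => u ^ cnt A z)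
      ((volume.restrict (Set.uIoc (0 : ℝ) 1)).prod (Measure.pi ρ)) := by
    refine Integrable.of_bound (C := 1) ?_ ?_
    · refine Measurable.aestronglyMeasurable ?_
      refine measurable_from_prod_countable_left fun z => ?_
      have h : Measurable fun u : ℝ => u ^ cnt A z := by fun_prop
      exact h
    · have hae : ∀ᵐ p : ℝ × (ι → X) ∂((volume.restrict (Set.uIoc (0 : ℝ) 1)).prod
          (Measure.pi ρ)), p.1 ∈ Set.uIoc (0 : ℝ) 1 := by
        have h1 : ∀ᵐ u : ℝ ∂(volume.restrict (Set.uIoc (0 : ℝ) 1)), u ∈ Set.uIoc (0 : ℝ) 1 :=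
          ae_restrict_mem measurableSet_uIoc
        exact Measure.quasiMeasurePreserving_fst.ae h1
      filter_upwards [hae] with p hp
      rw [Set.uIoc_of_le zero_le_one] at hp
      have h0 : 0 ≤ p.1 := hp.1.le
      simp only [Function.uncurry, Real.norm_eq_abs, abs_pow, abs_of_nonneg h0]
      exact pow_le_one₀ h0 hp.2
  rw [← intervalIntegral_integral_swap hint] at e1
  rw [e1, ← hs]
  have h2 : ∫ u in (0 : ℝ)..1, ∫ z, u ^ cnt A z ∂(Measure.pi ρ) ≤
      ∫ u in (0 : ℝ)..1, Real.exp (-s * (1 - u)) := by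
    refine intervalIntegral.integral_mono_on zero_le_one ?_ ?_ ?_
    · rw [intervalIntegrable_iff]
      exact hint.integral_prod_left
    · exact Continuous.intervalIntegrable (by fun_prop) _ _
    · intro u hu
      rw [hs]
      exact integral_pow_cnt ρ A hu.1 hu.2
  have h3 : ∫ u in (0 : ℝ)..1, Real.exp (-s * (1 - u)) * s = 1 - Real.exp (-s) := by
    have hd : ∀ u ∈ Set.uIcc (0 : ℝ) 1, HasDerivAt (fun u : ℝ => Real.exp (-s * (1 - u)))
        (Real.exp (-s * (1 - u)) * s) u := by
      intro u _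
      have h := ((((hasDerivAt_id' u).const_sub 1)).const_mul (-s)).exp
      convert h using 1
      ring
    rw [intervalIntegral.integral_eq_sub_of_hasDerivAt hd
      (Continuous.intervalIntegrable (by fun_prop) _ _)]
    simp
  rw [intervalIntegral.integral_mul_const] at h3
  have h4 := mul_le_mul_of_nonneg_right h2 hs0
  have h5 := Real.exp_pos (-s)
  linarith

theorem mean_inv_sqrt (ρ : ι → Measure X) [∀ i, IsProbabilityMeasure (ρ i)] (A : ι → Set X) :
    (∫ z, 1 / Real.sqrt ((cnt A z : ℝ) + 1) ∂(Measure.pi ρ)) *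
      Real.sqrt (∑ i, (ρ i).real (A i)) ≤ 1 := by
  obtain ⟨s, hs⟩ : ∃ s, s = ∑ i, (ρ i).real (A i) := ⟨_, rfl⟩
  have hs0 : 0 ≤ s := by
    rw [hs]
    exact sum_nonneg fun i _ => measureReal_nonneg
  rw [← hs]
  have hb : ∀ z : ι → X, ‖1 / ((cnt A z : ℝ) + 1)‖ ≤ 1 := by
    intro z
    rw [Real.norm_eq_abs, abs_of_nonneg (by positivity), div_le_one (by positivity)]
    have : (0 : ℝ) ≤ cnt A z := Nat.cast_nonneg _
    linarith
  have hi1 : Integrable (fun z => 1 / ((cnt A z : ℝ) + 1)) (Measure.pi ρ) :=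
    Integrable.of_bound (C := 1) (measurable_of_countable _).aestronglyMeasurable
      (Filter.Eventually.of_forall hb)
  have hi2 : Integrable (fun z => 1 / Real.sqrt ((cnt A z : ℝ) + 1)) (Measure.pi ρ) := by
    refine Integrable.of_bound (C := 1) (measurable_of_countable _).aestronglyMeasurable
      (Filter.Eventually.of_forall fun z => ?_)
    have h1 : 1 ≤ Real.sqrt ((cnt A z : ℝ) + 1) := by
      rw [Real.one_le_sqrt]
      have : (0 : ℝ) ≤ cnt A z := Nat.cast_nonneg _
      linarith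
    rw [Real.norm_eq_abs, abs_of_nonneg (by positivity), div_le_one (by positivity)]
    exact h1
  rw [← integral_mul_const]
  have h1 : ∫ z, 1 / Real.sqrt ((cnt A z : ℝ) + 1) * Real.sqrt s ∂(Measure.pi ρ) ≤
      ∫ z, (1 / 2 * (1 / ((cnt A z : ℝ) + 1) * s) + 1 / 2) ∂(Measure.pi ρ) := by
    refine integral_mono (hi2.mul_const _)
      (((hi1.mul_const _).const_mul _).add (integrable_const _)) fun z => ?_
    have h0 : (0 : ℝ) < (cnt A z : ℝ) + 1 := by positivity
    have h2 := two_mul_le_add_sq (1 / Real.sqrt ((cnt A z : ℝ) + 1) * Real.sqrt s) 1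
    rw [mul_pow, div_pow, one_pow, Real.sq_sqrt h0.le, Real.sq_sqrt hs0] at h2
    simp only
    linarith
  refine h1.trans ?_
  rw [integral_add ((hi1.mul_const _).const_mul _) (integrable_const _), integral_const_mul,
    integral_mul_const]
  have h3 := mean_inv ρ A
  rw [← hs] at h3
  simp only [integral_const, probReal_univ, smul_eq_mul, one_mul]
  linarith

end Pool.Agent.H96.SR
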