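import Mathlib
import Pool.Agent.H96.SR.Sym

/-! The concentration function of a sum of independent variables. -/

set_option autoImplicit false

namespace Pool.Agent.H96.SR

open Finset MeasureTheory

variable {ι X : Type*} [Fintype ι] [Countable X] [MeasurableSpace X] [MeasurableSingletonClass X]

/-- A sum of independent variables is rarely in a given window. -/
theorem concentration (ν : ι → Measure X) [∀ i, IsProbabilityMeasure (ν i)] (f : ι → X → ℝ)
    {δ L : ℝ} (T : ℝ) (hpos : 0 < δ) (K : ℕ) (hK : 2 * L ≤ K * δ) :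
    (Measure.pi ν).real {w | |∑ i, f i (w i) - T| < L} *
      Real.sqrt (∑ i, ((ν i).prod (ν i)).real {x | δ ≤ |f i x.1 - f i x.2|}) ≤ K := by
  classical
  obtain ⟨B, hB⟩ : ∃ B : Set (ι → X), B = {w | |∑ i, f i (w i) - T| < L} := ⟨_, rfl⟩
  obtain ⟨A, hA⟩ : ∃ A : ι → Set (X × X), A = fun i => {x | δ ≤ |f i x.1 - f i x.2|} := ⟨_, rfl⟩
  obtain ⟨ρ, hρ⟩ : ∃ ρ : ι → Measure (X × X), ρ = fun i => (ν i).prod (ν i) := ⟨_, rfl⟩
  have hρp : ∀ i, IsProbabilityMeasure (ρ i) := fun i => by
    rw [hρ]
    infer_instance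
  have hmp : ∀ S : Finset ι, MeasurePreserving
      (fun (z : ι → X × X) i => if i ∈ S then (z i).1 else (z i).2) (Measure.pi ρ)
      (Measure.pi ν) := by
    intro S
    refine measurePreserving_pi (f := fun i (x : X × X) => if i ∈ S then x.1 else x.2) ρ ν ?_
    intro i
    rw [hρ]
    by_cases hi : i ∈ S
    · simp only [if_pos hi]
      exact measurePreserving_fst
    · simp only [if_neg hi]
      exact measurePreserving_snd
  have h1 : ∀ S : Finset ι, (Measure.pi ν).real B =
      ∫ z, ((fun (z : ι → X × X) i => if i ∈ S then (z i).1 else (z i).2) ⁻¹' B).indicator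
        (fun _ => (1 : ℝ)) z ∂(Measure.pi ρ) := by
    intro S
    rw [integral_indicator_const _ (MeasurableSet.of_discrete), smul_eq_mul, mul_one,
      measureReal_def, measureReal_def, (hmp S).measure_preimage
        (MeasurableSet.of_discrete).nullMeasurableSet]
  have hint : ∀ S : Finset ι, Integrable (((fun (z : ι → X × X) i =>
      if i ∈ S then (z i).1 else (z i).2) ⁻¹' B).indicator (fun _ => (1 : ℝ))) (Measure.pi ρ) :=
    fun S => (integrable_const _).indicator MeasurableSet.of_discrete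
  have h2 : (2 : ℝ) ^ (Fintype.card ι) * (Measure.pi ν).real B =
      ∫ z, ∑ S : Finset ι, ((fun (z : ι → X × X) i =>
        if i ∈ S then (z i).1 else (z i).2) ⁻¹' B).indicator (fun _ => (1 : ℝ)) z
        ∂(Measure.pi ρ) := by
    rw [integral_finsetSum _ fun S _ => hint S, ← sum_congr rfl fun S _ => h1 S, sum_const,
      card_univ, Fintype.card_finset, nsmul_eq_mul]
    push_cast
    rfl
  have h3 : ∀ z : ι → X × X, ∑ S : Finset ι, ((fun (z : ι → X × X) i =>
        if i ∈ S then (z i).1 else (z i).2) ⁻¹' B).indicator (fun _ => (1 : ℝ)) z ≤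
      (K * 2 ^ (Fintype.card ι)) * (1 / Real.sqrt ((cnt A z : ℝ) + 1)) := by
    intro z
    have h4 := lo_window (fun i => f i (z i).1) (fun i => f i (z i).2) (δ := δ) (L := L) T hpos K hK
      (univ.filter fun i => z i ∈ A i) (fun i hi => by
        have := (mem_filter.1 hi).2
        rw [hA] at this
        exact this)
    have h5 : ∑ S : Finset ι, ((fun (z : ι → X × X) i =>
        if i ∈ S then (z i).1 else (z i).2) ⁻¹' B).indicator (fun _ => (1 : ℝ)) z =
        (((univ.filter fun S : Finset ι =>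
          |∑ i, (if i ∈ S then f i (z i).1 else f i (z i).2) - T| < L).card : ℕ) : ℝ) := by
      rw [card_filter]
      push_cast
      refine sum_congr rfl fun S _ => ?_
      rw [Set.indicator_apply]
      have e : z ∈ ((fun (z : ι → X × X) i => if i ∈ S then (z i).1 else (z i).2) ⁻¹' B) ↔
          |∑ i, (if i ∈ S then f i (z i).1 else f i (z i).2) - T| < L := by
        rw [Set.mem_preimage, hB, Set.mem_ofPred_eq]
        have e1 : ∑ i, f i (if i ∈ S then (z i).1 else (z i).2) =
            ∑ i, (if i ∈ S then f i (z i).1 else f i (z i).2) :=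
          sum_congr rfl fun i _ => by split_ifs <;> rfl
        rw [e1]
      simp only [e]
    rw [h5]
    refine h4.trans (le_of_eq ?_)
    have e6 : cnt A z = (univ.filter fun i => z i ∈ A i).card := by
      unfold cnt
      congr
    rw [e6]
    ring
  have hi2 : Integrable (fun z => 1 / Real.sqrt ((cnt A z : ℝ) + 1)) (Measure.pi ρ) := by
    refine Integrable.of_bound (C := 1) (measurable_of_countable _).aestronglyMeasurable
      (Filter.Eventually.of_forall fun z => ?_)
    have h1 : 1 ≤ Real.sqrt ((cnt A z : ℝ) + 1) := by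
      rw [Real.one_le_sqrt]
      have : (0 : ℝ) ≤ cnt A z := Nat.cast_nonneg _
      linarith
    rw [Real.norm_eq_abs, abs_of_nonneg (by positivity), div_le_one (by positivity)]
    exact h1
  have h6 : (2 : ℝ) ^ (Fintype.card ι) * (Measure.pi ν).real B ≤
      (K * 2 ^ (Fintype.card ι)) * ∫ z, 1 / Real.sqrt ((cnt A z : ℝ) + 1) ∂(Measure.pi ρ) := by
    rw [h2, ← integral_const_mul]
    exact integral_mono (integrable_finsetSum _ fun S _ => hint S) (hi2.const_mul _) h3
  have h7 : (Measure.pi ν).real B ≤ K * ∫ z, 1 / Real.sqrt ((cnt A z : ℝ) + 1) ∂(Measure.pi ρ) := by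
    have h2p : (0 : ℝ) < 2 ^ (Fintype.card ι) := by positivity
    refine le_of_mul_le_mul_left ?_ h2p
    calc _ ≤ _ := h6
      _ = _ := by ring
  have h8 := mean_inv_sqrt ρ A
  have e9 : ∑ i, ((ν i).prod (ν i)).real {x | δ ≤ |f i x.1 - f i x.2|} = ∑ i, (ρ i).real (A i) := by
    rw [hρ, hA]
  rw [e9, ← hB]
  have hs0 := Real.sqrt_nonneg (∑ i, (ρ i).real (A i))
  calc (Measure.pi ν).real B * Real.sqrt (∑ i, (ρ i).real (A i))
      ≤ (K * ∫ z, 1 / Real.sqrt ((cnt A z : ℝ) + 1) ∂(Measure.pi ρ)) *
        Real.sqrt (∑ i, (ρ i).real (A i)) := mul_le_mul_of_nonneg_right h7 hs0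
    _ = K * ((∫ z, 1 / Real.sqrt ((cnt A z : ℝ) + 1) ∂(Measure.pi ρ)) *
        Real.sqrt (∑ i, (ρ i).real (A i))) := by ring
    _ ≤ K * 1 := mul_le_mul_of_nonneg_left h8 (Nat.cast_nonneg _)
    _ = K := mul_one _

end Pool.Agent.H96.SR
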