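import Mathlib

/-! Independent identically distributed variables of finite variance: the largest is small. -/

set_option autoImplicit false

namespace Pool.Agent.H96.SR

open Finset MeasureTheory ProbabilityTheory Filter Topology

theorem det_big (x : ℕ → ℕ) {a b : ℝ} (ha : 0 < a)
    (h1 : Tendsto (fun n : ℕ => (∑ i ∈ range n, (x i : ℝ)) / n) atTop (𝓝 a))
    (h2 : Tendsto (fun n : ℕ => (∑ i ∈ range n, (x i : ℝ) ^ 2) / n) atTop (𝓝 b)) (C : ℕ) :
    ∀ᶠ n : ℕ in atTop, ∃ μ : ℕ, (∀ i < n, x i ≤ μ) ∧ C * (μ + 1) ^ 2 ≤ ∑ i ∈ range n, x i := by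
  have h3 : Tendsto (fun n : ℕ => (x n : ℝ) ^ 2 / ((n : ℝ) + 1)) atTop (𝓝 0) := by
    have h4 : Tendsto (fun n : ℕ => (∑ i ∈ range (n + 1), (x i : ℝ) ^ 2) / ((n + 1 : ℕ) : ℝ)) atTop
        (𝓝 b) := h2.comp (tendsto_add_atTop_nat 1)
    have h5 : Tendsto (fun n : ℕ => (n : ℝ) / ((n : ℝ) + 1)) atTop (𝓝 1) :=
      tendsto_natCast_div_add_atTop 1
    have h6 := h4.sub (h2.mul h5)
    rw [mul_one, sub_self] at h6
    refine h6.congr' ?_
    filter_upwards [eventually_ge_atTop 1] with n hn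
    have hn' : (0 : ℝ) < n := by exact_mod_cast hn
    rw [sum_range_succ]
    push_cast
    field_simp
    ring
  obtain ⟨ε, hε⟩ : ∃ ε : ℝ, ε = a / (8 * ((C : ℝ) + 1)) := ⟨_, rfl⟩
  have hε0 : 0 < ε := by rw [hε]; positivity
  have hCε : C * ε ≤ a / 8 := by
    rw [hε, mul_div_assoc', div_le_div_iff₀ (by positivity) (by norm_num)]
    have : (0 : ℝ) ≤ C := Nat.cast_nonneg C
    nlinarith
  have h7 : ∀ᶠ n : ℕ in atTop, (x n : ℝ) ^ 2 / ((n : ℝ) + 1) < ε :=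
    (tendsto_order.1 h3).2 ε hε0
  obtain ⟨N, hN⟩ := eventually_atTop.1 h7
  have h8 : ∀ᶠ n : ℕ in atTop, a / 2 < (∑ i ∈ range n, (x i : ℝ)) / n :=
    (tendsto_order.1 h1).1 (a / 2) (by linarith)
  have h9 : ∀ᶠ n : ℕ in atTop, (∑ i ∈ range N, (x i : ℝ) ^ 2) / ε + 8 * C / a ≤ n :=
    tendsto_natCast_atTop_atTop.eventually_ge_atTop _
  filter_upwards [h8, h9, eventually_ge_atTop 1] with n hn8 hn9 hn1
  have hn0 : (0 : ℝ) < n := by exact_mod_cast hn1
  have hM0 : (0 : ℝ) ≤ ∑ i ∈ range N, (x i : ℝ) ^ 2 := sum_nonneg fun i _ => by positivity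
  have hM1 : ∑ i ∈ range N, (x i : ℝ) ^ 2 ≤ ε * n := by
    have h10 : (∑ i ∈ range N, (x i : ℝ) ^ 2) / ε ≤ n := by
      have : 0 ≤ 8 * C / a := by positivity
      linarith
    rw [div_le_iff₀ hε0] at h10
    linarith
  have hM2 : 8 * C ≤ a * n := by
    have h10 : 8 * C / a ≤ n := by
      have : 0 ≤ (∑ i ∈ range N, (x i : ℝ) ^ 2) / ε := by positivity
      linarith
    rw [div_le_iff₀ ha] at h10
    linarith
  have hx : ∀ i < n, (x i : ℝ) ^ 2 ≤ ε * n := by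
    intro i hi
    by_cases hiN : i < N
    · refine le_trans ?_ hM1
      exact single_le_sum (f := fun i => (x i : ℝ) ^ 2) (fun i _ => by positivity)
        (mem_range.2 hiN)
    · have h11 := hN i (not_lt.1 hiN)
      rw [div_lt_iff₀ (by positivity)] at h11
      have h12 : (i : ℝ) + 1 ≤ n := by exact_mod_cast hi
      have : ε * ((i : ℝ) + 1) ≤ ε * n := mul_le_mul_of_nonneg_left h12 hε0.le
      linarith
  refine ⟨⌊Real.sqrt (ε * n)⌋₊, fun i hi => ?_, ?_⟩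
  · refine Nat.le_floor ?_
    exact Real.le_sqrt_of_sq_le (hx i hi)
  · have hs0 : 0 ≤ Real.sqrt (ε * n) := Real.sqrt_nonneg _
    have hf := Nat.floor_le hs0
    have hsq : Real.sqrt (ε * n) ^ 2 = ε * n := Real.sq_sqrt (by positivity)
    have hf0 : (0 : ℝ) ≤ (⌊Real.sqrt (ε * n)⌋₊ : ℝ) := Nat.cast_nonneg _
    have h13 : ((⌊Real.sqrt (ε * n)⌋₊ : ℝ) + 1) ^ 2 ≤ 2 * (ε * n) + 2 := by
      nlinarith [sq_nonneg (Real.sqrt (ε * n) - 1), mul_self_le_mul_self hf0 hf]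
    have h14 : (C : ℝ) * ((⌊Real.sqrt (ε * n)⌋₊ : ℝ) + 1) ^ 2 ≤ a / 2 * n := by
      have hC0 : (0 : ℝ) ≤ C := Nat.cast_nonneg C
      calc (C : ℝ) * ((⌊Real.sqrt (ε * n)⌋₊ : ℝ) + 1) ^ 2 ≤ C * (2 * (ε * n) + 2) :=
            mul_le_mul_of_nonneg_left h13 hC0
        _ = 2 * (C * ε) * n + 2 * C := by ring
        _ ≤ 2 * (a / 8) * n + 2 * C := by
            have := mul_le_mul_of_nonneg_right hCε hn0.le
            linarith
        _ ≤ a / 2 * n := by linarith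
    have h15 : a / 2 * n < ∑ i ∈ range n, (x i : ℝ) := by
      rwa [lt_div_iff₀ hn0] at hn8
    have h16 : (C : ℝ) * ((⌊Real.sqrt (ε * n)⌋₊ : ℝ) + 1) ^ 2 ≤ ∑ i ∈ range n, (x i : ℝ) :=
      h14.trans h15.le
    exact_mod_cast h16

theorem slln_big {Ω : Type*} [MeasurableSpace Ω] {P : Measure Ω} [IsProbabilityMeasure P]
    (X : ℕ → Ω → ℕ) (hind : Pairwise fun i j => IndepFun (X i) (X j) P)
    (hid : ∀ i, IdentDistrib (X i) (X 0) P P)
    (hint : Integrable (fun ω => (X 0 ω : ℝ) ^ 2) P) (hne : ¬ ∀ᵐ ω ∂P, X 0 ω = 0) (C : ℕ) :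
    ∀ᵐ ω ∂P, ∀ᶠ n : ℕ in atTop,
      ∃ μ : ℕ, (∀ i < n, X i ω ≤ μ) ∧ C * (μ + 1) ^ 2 ≤ ∑ i ∈ range n, X i ω := by
  have hm : ∀ i, AEMeasurable (X i) P := fun i => (hid i).aemeasurable_fst
  have hm1 : AEMeasurable (fun ω => (X 0 ω : ℝ)) P :=
    (measurable_of_countable (fun k : ℕ => (k : ℝ))).comp_aemeasurable (hm 0)
  have hint1 : Integrable (fun ω => (X 0 ω : ℝ)) P := by
    refine hint.mono hm1.aestronglyMeasurable (Eventually.of_forall fun ω => ?_)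
    rw [Real.norm_eq_abs, Real.norm_eq_abs, Nat.abs_cast, abs_of_nonneg (by positivity)]
    have h : X 0 ω ≤ (X 0 ω) ^ 2 := Nat.le_self_pow (by norm_num) _
    exact_mod_cast h
  have h1 := strong_law_ae_real (fun i ω => (X i ω : ℝ)) hint1
    (fun i j hij => (hind hij).comp (measurable_of_countable (fun k : ℕ => (k : ℝ)))
      (measurable_of_countable (fun k : ℕ => (k : ℝ))))
    (fun i => (hid i).comp (measurable_of_countable (fun k : ℕ => (k : ℝ))))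
  have h2 := strong_law_ae_real (fun i ω => (X i ω : ℝ) ^ 2) hint
    (fun i j hij => (hind hij).comp (measurable_of_countable (fun k : ℕ => (k : ℝ) ^ 2))
      (measurable_of_countable (fun k : ℕ => (k : ℝ) ^ 2)))
    (fun i => (hid i).comp (measurable_of_countable (fun k : ℕ => (k : ℝ) ^ 2)))
  have ha : 0 < ∫ ω, (X 0 ω : ℝ) ∂P := by
    rw [integral_pos_iff_support_of_nonneg (fun ω => Nat.cast_nonneg _) hint1]
    rw [pos_iff_ne_zero]
    intro h0
    apply hne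
    rw [ae_iff]
    refine measure_mono_null ?_ h0
    intro ω hω
    simp only [Set.mem_ofPred_eq] at hω
    simp only [Function.mem_support]
    exact_mod_cast hω
  filter_upwards [h1, h2] with ω hω1 hω2
  exact det_big (fun i => X i ω) ha hω1 hω2 C

end Pool.Agent.H96.SR
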