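import Mathlib

/-! The lower tail of a sum of independent bounded variables. -/

set_option autoImplicit false

namespace Pool.Agent.H96.SR

open Finset MeasureTheory

variable {ι : Type*} [Fintype ι]

theorem chord {x : ℝ} (h0 : 0 ≤ x) (h1 : x ≤ 1) : Real.exp (-(Real.log 2) * x) ≤ 1 - x / 2 := by
  have h := convexOn_exp.2 (Set.mem_univ (0 : ℝ)) (Set.mem_univ (-(Real.log 2))) (sub_nonneg.2 h1)
    h0 (by ring)
  have e : Real.exp (-(Real.log 2)) = 1 / 2 := by
    rw [Real.exp_neg, Real.exp_log (by norm_num)]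
    norm_num
  simp only [smul_eq_mul, mul_zero, zero_add, Real.exp_zero, e] at h
  rw [mul_comm]
  linarith

theorem ae_le (ν : ι → Measure ℕ) [∀ i, IsProbabilityMeasure (ν i)] {μ : ℕ}
    (hν : ∀ i, ∀ᵐ x ∂(ν i), x ≤ μ) : ∀ᵐ w ∂(Measure.pi ν), ∀ i, w i ≤ μ := by
  rw [ae_all_iff]
  intro i
  exact (measurePreserving_eval ν i).quasiMeasurePreserving.ae (hν i)

theorem lower_tail (ν : ι → Measure ℕ) [∀ i, IsProbabilityMeasure (ν i)] {μ : ℕ} (hμ : 1 ≤ μ)
    (hν : ∀ i, ∀ᵐ x ∂(ν i), x ≤ μ) :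
    (Measure.pi ν).real {w | 2 * ∑ i, (w i : ℝ) ≤ ∑ i, ∫ x, (x : ℝ) ∂(ν i)} ≤
      Real.exp (-(∑ i, ∫ x, (x : ℝ) ∂(ν i)) / (7 * μ)) := by
  obtain ⟨S, hS⟩ : ∃ S, S = ∑ i, ∫ x, (x : ℝ) ∂(ν i) := ⟨_, rfl⟩
  have hS0 : 0 ≤ S := by
    rw [hS]
    exact sum_nonneg fun i _ => integral_nonneg fun x => Nat.cast_nonneg x
  have hμ' : (0 : ℝ) < μ := by exact_mod_cast hμ
  rw [← hS]
  obtain ⟨l, hl⟩ : ∃ l, l = Real.log 2 := ⟨_, rfl⟩
  have hl0 : 0 < l := by rw [hl]; exact Real.log_pos (by norm_num)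
  have hl1 : l < 0.6931471808 := by rw [hl]; exact Real.log_two_lt_d9
  have hb : ∀ x : ℕ, ‖Real.exp (-l * (x / μ))‖ ≤ 1 := by
    intro x
    rw [Real.norm_eq_abs, abs_of_pos (Real.exp_pos _), Real.exp_le_one_iff]
    have : 0 ≤ l * (x / μ) := by positivity
    linarith
  have hint1 : ∀ i, Integrable (fun x : ℕ => Real.exp (-l * (x / μ))) (ν i) := fun i =>
    Integrable.of_bound (C := 1) (measurable_of_countable _).aestronglyMeasurable
      (Filter.Eventually.of_forall hb)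
  have hint2 : ∀ i, Integrable (fun x : ℕ => (x : ℝ)) (ν i) := fun i =>
    Integrable.of_bound (C := μ) (measurable_of_countable _).aestronglyMeasurable (by
      filter_upwards [hν i] with x hx
      rw [Real.norm_eq_abs, Nat.abs_cast]
      exact_mod_cast hx)
  have h1 : ∀ i, ∫ x, Real.exp (-l * (x / μ)) ∂(ν i) ≤
      Real.exp (-(∫ x, (x : ℝ) ∂(ν i)) / (2 * μ)) := by
    intro i
    have h2 : ∫ x, Real.exp (-l * (x / μ)) ∂(ν i) ≤ ∫ x, (1 - (x : ℝ) / (2 * μ)) ∂(ν i) := by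
      refine integral_mono_ae (hint1 i) ((integrable_const _).sub ((hint2 i).div_const _)) ?_
      filter_upwards [hν i] with x hx
      have h3 : (x : ℝ) / μ ≤ 1 := by
        rw [div_le_one hμ']
        exact_mod_cast hx
      have h4 := chord (x := (x : ℝ) / μ) (by positivity) h3
      rw [← hl] at h4
      refine h4.trans (le_of_eq ?_)
      field_simp
    refine h2.trans ?_
    rw [integral_sub (integrable_const _) ((hint2 i).div_const _), integral_div]
    simp only [integral_const, probReal_univ, smul_eq_mul, one_mul]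
    have := Real.add_one_le_exp (-(∫ x, (x : ℝ) ∂(ν i)) / (2 * μ))
    rw [neg_div] at this ⊢
    linarith
  have h5 : (Measure.pi ν).real {w | 2 * ∑ i, (w i : ℝ) ≤ S} ≤
      ∫ w, Real.exp (l * S / (2 * μ)) * ∏ i, Real.exp (-l * ((w i : ℝ) / μ)) ∂(Measure.pi ν) := by
    have e : (Measure.pi ν).real {w | 2 * ∑ i, (w i : ℝ) ≤ S} =
        ∫ w, ({w | 2 * ∑ i, (w i : ℝ) ≤ S} : Set (ι → ℕ)).indicator (fun _ => (1 : ℝ)) w
          ∂(Measure.pi ν) := by
      rw [integral_indicator_const _ (MeasurableSet.of_discrete), smul_eq_mul, mul_one]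
    rw [e]
    refine integral_mono ((integrable_const _).indicator MeasurableSet.of_discrete) ?_ ?_
    · refine Integrable.const_mul ?_ _
      exact Integrable.fintype_prod (f := fun i (x : ℕ) => Real.exp (-l * ((x : ℝ) / μ))) hint1
    · intro w
      simp only
      have e2 : Real.exp (l * S / (2 * μ)) * ∏ i, Real.exp (-l * ((w i : ℝ) / μ)) =
          Real.exp (l / (2 * μ) * (S - 2 * ∑ i, (w i : ℝ))) := by
        rw [← Real.exp_sum, ← Real.exp_add]
        congr 1
        rw [← mul_sum, ← sum_div]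
        field_simp
        ring
      rw [e2]
      by_cases hw : w ∈ ({w | 2 * ∑ i, (w i : ℝ) ≤ S} : Set (ι → ℕ))
      · rw [Set.indicator_of_mem hw]
        rw [Real.one_le_exp_iff]
        have : 2 * ∑ i, (w i : ℝ) ≤ S := hw
        have h6 : 0 ≤ S - 2 * ∑ i, (w i : ℝ) := by linarith
        positivity
      · rw [Set.indicator_of_notMem hw]
        positivity
  refine h5.trans ?_
  rw [integral_const_mul, integral_fintype_prod_eq_prod (𝕜 := ℝ)
    (f := fun i (x : ℕ) => Real.exp (-l * ((x : ℝ) / μ)))]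
  have h7 : ∏ i, ∫ x, Real.exp (-l * ((x : ℝ) / μ)) ∂(ν i) ≤
      ∏ i, Real.exp (-(∫ x, (x : ℝ) ∂(ν i)) / (2 * μ)) :=
    prod_le_prod (fun i _ => integral_nonneg fun x => (Real.exp_pos _).le) fun i _ => h1 i
  have h8 : ∏ i, Real.exp (-(∫ x, (x : ℝ) ∂(ν i)) / (2 * μ)) = Real.exp (-S / (2 * μ)) := by
    rw [← Real.exp_sum, hS, ← sum_div, sum_neg_distrib]
  rw [h8] at h7
  calc Real.exp (l * S / (2 * μ)) * ∏ i, ∫ x, Real.exp (-l * ((x : ℝ) / μ)) ∂(ν i)
      ≤ Real.exp (l * S / (2 * μ)) * Real.exp (-S / (2 * μ)) :=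
        mul_le_mul_of_nonneg_left h7 (Real.exp_pos _).le
    _ = Real.exp (-((1 - l) / 2) * (S / μ)) := by
        rw [← Real.exp_add]
        congr 1
        field_simp
        ring
    _ ≤ Real.exp (-S / (7 * μ)) := by
        rw [Real.exp_le_exp]
        have h9 : 0 ≤ S / μ := by positivity
        have e : -S / (7 * μ) = -(1 / 7) * (S / μ) := by
          field_simp
        rw [e]
        nlinarith

end Pool.Agent.H96.SR
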