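import Mathlib
import Pool.Agent.H96.SR.Conc

/-! The uniform measure on `{0, …, m}`. -/

set_option autoImplicit false

namespace Pool.Agent.H96.SR

open Finset MeasureTheory

theorem range_ne (m : ℕ) : (range (m + 1)).Nonempty := ⟨0, mem_range.2 (Nat.succ_pos m)⟩

/-- the uniform measure on `{0, …, m}` -/
noncomputable def uni (m : ℕ) : Measure ℕ :=
  (PMF.uniformOfFinset (range (m + 1)) (range_ne m)).toMeasure

instance (m : ℕ) : IsProbabilityMeasure (uni m) := by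
  unfold uni
  infer_instance

theorem uni_singleton {m x : ℕ} (hx : x ≤ m) : (uni m).real {x} = 1 / ((m : ℝ) + 1) := by
  have hx' : x ∈ range (m + 1) := mem_range.2 (Nat.lt_succ_of_le hx)
  unfold uni
  rw [measureReal_def, PMF.toMeasure_apply_singleton _ _ (MeasurableSet.singleton x),
    PMF.uniformOfFinset_apply_of_mem _ hx', card_range]
  rw [ENNReal.toReal_inv, ENNReal.toReal_natCast]
  push_cast
  rw [one_div]

theorem uni_finset {m : ℕ} {s : Finset ℕ} (hs : ∀ x ∈ s, x ≤ m) :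
    (uni m).real (s : Set ℕ) = s.card / ((m : ℝ) + 1) := by
  rw [← sum_measureReal_singleton, sum_congr rfl fun x hx => uni_singleton (hs x hx), sum_const,
    nsmul_eq_mul]
  ring

theorem uni_le (m : ℕ) : ∀ᵐ x ∂(uni m), x ≤ m := by
  have h : (uni m).real ((range (m + 1) : Finset ℕ) : Set ℕ) = 1 := by
    rw [uni_finset fun x hx => Nat.lt_succ_iff.1 (mem_range.1 hx), card_range]
    push_cast
    have : ((m : ℝ) + 1) ≠ 0 := by positivity
    field_simp
  have h2 : (uni m) ((range (m + 1) : Finset ℕ) : Set ℕ) = 1 := by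
    rw [measureReal_def] at h
    have h3 : (uni m) ((range (m + 1) : Finset ℕ) : Set ℕ) ≠ ⊤ := measure_ne_top _ _
    rw [← ENNReal.ofReal_toReal h3, h, ENNReal.ofReal_one]
  rw [← mem_ae_iff_prob_eq_one MeasurableSet.of_discrete] at h2
  filter_upwards [h2] with x hx
  exact Nat.lt_succ_iff.1 (mem_range.1 (mem_coe.1 hx))

theorem uni_mean (m : ℕ) : ∫ x, (x : ℝ) ∂(uni m) = m / 2 := by
  have hint : Integrable (fun x : ℕ => (x : ℝ)) (uni m) :=
    Integrable.of_bound (C := m) (measurable_of_countable _).aestronglyMeasurable (by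
      filter_upwards [uni_le m] with x hx
      rw [Real.norm_eq_abs, Nat.abs_cast]
      exact_mod_cast hx)
  have h1 : ∫ x, (x : ℝ) ∂(uni m) = ∫ x in ((range (m + 1) : Finset ℕ) : Set ℕ), (x : ℝ) ∂(uni m) := by
    have h2 : (uni m).restrict ((range (m + 1) : Finset ℕ) : Set ℕ) = uni m := by
      refine Measure.restrict_eq_self_of_ae_mem ?_
      filter_upwards [uni_le m] with x hx
      exact mem_coe.2 (mem_range.2 (Nat.lt_succ_of_le hx))
    rw [h2]
  rw [h1, setIntegral_finset _ hint.integrableOn]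
  have h3 : ∑ x ∈ range (m + 1), (uni m).real {x} • (x : ℝ) =
      (1 / ((m : ℝ) + 1)) * ∑ x ∈ range (m + 1), (x : ℝ) := by
    rw [mul_sum]
    refine sum_congr rfl fun x hx => ?_
    rw [uni_singleton (Nat.lt_succ_iff.1 (mem_range.1 hx)), smul_eq_mul]
  rw [h3]
  have h4 : (∑ x ∈ range (m + 1), (x : ℝ)) * 2 = (m + 1) * m := by
    have := Finset.sum_range_id_mul_two (m + 1)
    have h5 : ((∑ x ∈ range (m + 1), x : ℕ) : ℝ) * 2 = ((m + 1 : ℕ) : ℝ) * m := by
      rw [Nat.add_sub_cancel] at this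
      exact_mod_cast this
    push_cast at h5
    exact h5
  have h6 : ((m : ℝ) + 1) ≠ 0 := by positivity
  field_simp
  linarith

/-- Counting via the product measure. -/
theorem count_le {n m : ℕ} (B : Set (Fin n → ℕ)) :
    (Set.ncard {w : Fin n → ℕ | (∀ i, w i ≤ m) ∧ w ∈ B} : ℝ) ≤
      ((m : ℝ) + 1) ^ n * (Measure.pi fun _ : Fin n => uni m).real B := by
  classical
  obtain ⟨s, hs⟩ : ∃ s : Finset (Fin n → ℕ),
    s = (Fintype.piFinset fun _ : Fin n => range (m + 1)).filter fun w => w ∈ B := ⟨_, rfl⟩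
  have hms : ∀ w, w ∈ s ↔ (∀ i, w i ≤ m) ∧ w ∈ B := fun w => by
    rw [hs, mem_filter, Fintype.mem_piFinset]
    simp only [mem_range, Nat.lt_succ_iff]
  have h1 : {w : Fin n → ℕ | (∀ i, w i ≤ m) ∧ w ∈ B} = (s : Set (Fin n → ℕ)) := by
    ext w
    rw [mem_coe, hms w]
    exact Iff.rfl
  rw [h1, Set.ncard_coe_finset]
  have h2 : (Measure.pi fun _ : Fin n => uni m).real (s : Set (Fin n → ℕ)) =
      s.card * (1 / ((m : ℝ) + 1)) ^ n := by
    rw [← sum_measureReal_singleton]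
    have h3 : ∀ w ∈ s, (Measure.pi fun _ : Fin n => uni m).real {w} = (1 / ((m : ℝ) + 1)) ^ n := by
      intro w hw
      rw [measureReal_def, Measure.pi_singleton, ENNReal.toReal_prod]
      calc ∏ i, ((uni m) {w i}).toReal = ∏ _i : Fin n, (1 / ((m : ℝ) + 1)) :=
            prod_congr rfl fun i _ => uni_singleton (((hms w).1 hw).1 i)
        _ = _ := by rw [prod_const, card_univ, Fintype.card_fin]
    rw [sum_congr rfl h3, sum_const, nsmul_eq_mul]
  have h4 : (Measure.pi fun _ : Fin n => uni m).real (s : Set (Fin n → ℕ)) ≤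
      (Measure.pi fun _ : Fin n => uni m).real B :=
    measureReal_mono fun w hw => ((hms w).1 (mem_coe.1 hw)).2
  rw [h2] at h4
  have h5 : (0 : ℝ) < ((m : ℝ) + 1) ^ n := by positivity
  calc (s.card : ℝ) = ((m : ℝ) + 1) ^ n * (s.card * (1 / ((m : ℝ) + 1)) ^ n) := by
        rw [div_pow, one_pow]
        field_simp
    _ ≤ _ := mul_le_mul_of_nonneg_left h4 h5.le

/-- Two uniform variables are often far apart. -/
theorem uni_far {m : ℕ} (hm : 1 ≤ m) :
    1 / 16 ≤ ((uni m).prod (uni m)).real {x | (3 / 16 : ℝ) * ((m : ℝ) + 1) ^ 2 ≤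
      |(x.1 : ℝ) * (x.1 + 1) - (x.2 : ℝ) * (x.2 + 1)|} := by
  obtain ⟨I, hI⟩ : ∃ I : Finset ℕ, I = Ico ((m + 2) / 2) (m + 1) := ⟨_, rfl⟩
  obtain ⟨J, hJ⟩ : ∃ J : Finset ℕ, J = range ((m + 4) / 4) := ⟨_, rfl⟩
  have hIc : (I.card : ℝ) ≥ m / 2 := by
    rw [hI, Nat.card_Ico]
    have h : m ≤ 2 * (m + 1 - (m + 2) / 2) := by omega
    have h' : (m : ℝ) ≤ 2 * ((m + 1 - (m + 2) / 2 : ℕ) : ℝ) := by exact_mod_cast h
    linarith
  have hJc : (J.card : ℝ) ≥ ((m : ℝ) + 1) / 4 := by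
    rw [hJ, card_range]
    have h : m + 1 ≤ 4 * ((m + 4) / 4) := by omega
    have h' : (m : ℝ) + 1 ≤ 4 * (((m + 4) / 4 : ℕ) : ℝ) := by exact_mod_cast h
    linarith
  have h1 : ((uni m).prod (uni m)).real ((I : Set ℕ) ×ˢ (J : Set ℕ)) =
      (I.card / ((m : ℝ) + 1)) * (J.card / ((m : ℝ) + 1)) := by
    rw [measureReal_prod_prod, uni_finset, uni_finset]
    · intro x hx
      rw [hJ, mem_range] at hx
      omega
    · intro x hx
      rw [hI, mem_Ico] at hx
      omega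
  have h2 : ((I : Set ℕ) ×ˢ (J : Set ℕ)) ⊆ {x : ℕ × ℕ | (3 / 16 : ℝ) * ((m : ℝ) + 1) ^ 2 ≤
      |(x.1 : ℝ) * (x.1 + 1) - (x.2 : ℝ) * (x.2 + 1)|} := by
    rintro ⟨x, y⟩ ⟨hx, hy⟩
    simp only [mem_coe] at hx hy
    rw [hI, mem_Ico] at hx
    rw [hJ, mem_range] at hy
    have hx1 : m + 1 ≤ 2 * x := by omega
    have hy1 : 4 * y ≤ m := by omega
    have hx2 : (m : ℝ) + 1 ≤ 2 * x := by exact_mod_cast hx1
    have hy2 : 4 * (y : ℝ) ≤ m := by exact_mod_cast hy1
    have hy0 : (0 : ℝ) ≤ y := Nat.cast_nonneg y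
    have hm0 : (0 : ℝ) ≤ m := Nat.cast_nonneg m
    show (3 / 16 : ℝ) * ((m : ℝ) + 1) ^ 2 ≤ |(x : ℝ) * (x + 1) - (y : ℝ) * (y + 1)|
    refine le_trans ?_ (le_abs_self _)
    have e1 : ((m : ℝ) + 1) / 2 * (((m : ℝ) + 1) / 2 + 1) ≤ (x : ℝ) * (x + 1) :=
      mul_le_mul (by linarith) (by linarith) (by positivity) (by positivity)
    have e2 : (y : ℝ) * (y + 1) ≤ (m : ℝ) / 4 * ((m : ℝ) / 4 + 1) :=
      mul_le_mul (by linarith) (by linarith) (by positivity) (by positivity)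
    nlinarith
  have h3 := measureReal_mono (μ := (uni m).prod (uni m)) h2
  rw [h1] at h3
  refine le_trans ?_ h3
  have hm1 : (1 : ℝ) ≤ m := by exact_mod_cast hm
  have h4 : 1 / 4 ≤ (I.card : ℝ) / ((m : ℝ) + 1) := by
    rw [div_le_div_iff₀ (by norm_num) (by positivity)]
    linarith
  have h5 : 1 / 4 ≤ (J.card : ℝ) / ((m : ℝ) + 1) := by
    rw [div_le_div_iff₀ (by norm_num) (by positivity)]
    linarith
  calc (1 : ℝ) / 16 = 1 / 4 * (1 / 4) := by norm_num
    _ ≤ _ := mul_le_mul h4 h5 (by norm_num) (by positivity)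

end Pool.Agent.H96.SR
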